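import Pool.Agent.K7.H57.Cub.Law
import Pool.Agent.K7.H57.Cub.Lin

set_option autoImplicit false

/-! Cubic characters in short intervals for almost all members of a family of Eisenstein integers whose parameters are
equidistributed in the residue classes to all small moduli (helper67). -/

namespace Pool.Agent.K7.H67.CUB
open Finset
open Pool.Agent.Y692.QS
open Pool.Agent.X22.CC
open Pool.Agent.TH894.NE (box mem_box card_box)
open Pool.Agent.K7.H57.Cub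

/-- the finite family `t i`, `i ∈ T`, of points is equidistributed in the residue classes modulo `1, …, X`, with error `|T| / X` -/
def Equi {ι : Type} {d : ℕ} (T : Finset ι) (t : ι → Fin d → ℕ) (X : ℕ) : Prop :=
  ∀ q : ℕ, 1 ≤ q → q ≤ X → ∀ m ∈ box d q,
    |((T.filter (fun i => (fun l => t i l % q) = m)).card : ℝ) - (T.card : ℝ) / (q : ℝ) ^ d| ≤ (T.card : ℝ) / X

/-- the expansion of the moments -/
lemma momentF {ι : Type} (x : ι → Ei) (S : Finset ℕ) (hS : ∀ n ∈ S, n ≠ 0 ∧ ¬ 3 ∣ n) (v : ℕ → ℂ) (hv : ∀ n, ‖v n‖ ≤ 1) (k : ℕ)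
    (T : Finset ι) :
    ∑ i ∈ T, ‖∑ n ∈ S, v n * FF n (x i)‖ ^ (2 * k) ≤
      ∑ g ∈ Fintype.piFinset (fun _ : Fin (k + k) => S), ‖∑ i ∈ T, FF (∏ j, g j ^ sg k j) (x i)‖ := by
  classical
  obtain ⟨V, hV⟩ : ∃ V : Fin (k + k) → ℕ → ℂ, V = Fin.addCases (fun _ => v) (fun _ => fun n => (starRingEnd ℂ) (v n)) := ⟨_, rfl⟩
  have hV1 : ∀ j n, ‖V j n‖ ≤ 1 := by
    intro j n
    rw [hV]
    refine Fin.addCases (fun i => ?_) (fun i => ?_) j
    · simp only [Fin.addCases_left]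
      exact hv n
    · simp only [Fin.addCases_right, RCLike.norm_conj]
      exact hv n
  have h1 : ∀ m, ((‖∑ n ∈ S, v n * FF n (x m)‖ ^ (2 * k) : ℝ) : ℂ) =
      ∑ g ∈ Fintype.piFinset (fun _ : Fin (k + k) => S), (∏ j, V j (g j)) * FF (∏ j, g j ^ sg k j) (x m) := by
    intro m
    have e1 : ((‖∑ n ∈ S, v n * FF n (x m)‖ ^ (2 * k) : ℝ) : ℂ) = ∏ j : Fin (k + k), ∑ n ∈ S, V j n * FF n (x m) ^ sg k j := by
      rw [Fin.prod_univ_add]
      have e2 : ∀ i : Fin k, ∑ n ∈ S, V (Fin.castAdd k i) n * FF n (x m) ^ sg k (Fin.castAdd k i) = ∑ n ∈ S, v n * FF n (x m) := by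
        intro i
        apply sum_congr rfl
        intro n _
        rw [hV]
        simp only [Fin.addCases_left, sg, pow_one]
      have e3 : ∀ i : Fin k, ∑ n ∈ S, V (Fin.natAdd k i) n * FF n (x m) ^ sg k (Fin.natAdd k i) = (starRingEnd ℂ) (∑ n ∈ S, v n * FF n (x m)) := by
        intro i
        rw [map_sum]
        apply sum_congr rfl
        intro n _
        rw [hV, map_mul, ← sq_conj (FF_val n (x m))]
        simp only [Fin.addCases_right, sg]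
      rw [prod_congr rfl (fun i _ => e2 i), prod_congr rfl (fun i _ => e3 i), prod_const, prod_const, card_univ, Fintype.card_fin, ← mul_pow, Complex.mul_conj']
      push_cast
      rw [pow_mul]
    rw [e1, prod_univ_sum]
    apply sum_congr rfl
    intro g hg
    rw [Fintype.mem_piFinset] at hg
    rw [prod_mul_distrib, FF_prod univ _ (fun j _ => pow_ne_zero _ (hS _ (hg j)).1) (fun j _ => three_pow (hS _ (hg j)).2 _)]
    congr 1
    apply prod_congr rfl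
    intro j _
    rw [FF_pow (hS _ (hg j)).1 (hS _ (hg j)).2]
  have h2 : ((∑ m ∈ T, ‖∑ n ∈ S, v n * FF n (x m)‖ ^ (2 * k) : ℝ) : ℂ) =
      ∑ g ∈ Fintype.piFinset (fun _ : Fin (k + k) => S), (∏ j, V j (g j)) * ∑ m ∈ T, FF (∏ j, g j ^ sg k j) (x m) := by
    rw [Complex.ofReal_sum, sum_congr rfl (fun m _ => h1 m), sum_comm]
    apply sum_congr rfl
    intro g _
    rw [mul_sum]
  have h3 : ‖((∑ m ∈ T, ‖∑ n ∈ S, v n * FF n (x m)‖ ^ (2 * k) : ℝ) : ℂ)‖ ≤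
      ∑ g ∈ Fintype.piFinset (fun _ : Fin (k + k) => S), ‖∑ m ∈ T, FF (∏ j, g j ^ sg k j) (x m)‖ := by
    rw [h2]
    refine (norm_sum_le _ _).trans (sum_le_sum fun g _ => ?_)
    rw [norm_mul, norm_prod]
    calc (∏ j, ‖V j (g j)‖) * ‖∑ m ∈ T, FF (∏ j, g j ^ sg k j) (x m)‖ ≤ 1 * ‖∑ m ∈ T, FF (∏ j, g j ^ sg k j) (x m)‖ := by
          apply mul_le_mul_of_nonneg_right _ (norm_nonneg _)
          exact prod_le_one (fun j _ => norm_nonneg _) (fun j _ => hV1 j _)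
      _ = _ := one_mul _
  rw [Complex.norm_real] at h3
  exact (le_abs_self _).trans h3

/-- the sums over the family -/
lemma fam_mean {ι : Type} {d B : ℕ} {a : (Fin d → ℕ) → Ei} (ha : Aff d B a) (T : Finset ι) (t : ι → Fin d → ℕ) (X : ℕ)
    (hT : Equi T t X) (q : ℕ) (hq : q ≠ 0) (h3 : ¬ 3 ∣ q) (hqX : q ≤ X) :
    ‖∑ i ∈ T, FF q (a (t i))‖ ≤ (T.card : ℝ) * (1 / Zr q B + (q : ℝ) ^ d / X) := by
  classical
  have hq0 : (0 : ℝ) < q := by exact_mod_cast Nat.pos_of_ne_zero hq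
  have hZ : (0 : ℝ) < Zr q B := by exact_mod_cast Zr_pos q B
  have hmaps : ∀ i ∈ T, (fun l => t i l % q) ∈ box d q := by
    intro i _
    rw [mem_box]
    intro l
    exact Nat.mod_lt _ (Nat.pos_of_ne_zero hq)
  have e1 : ∑ i ∈ T, FF q (a (t i)) = ∑ m ∈ box d q, ((T.filter (fun i => (fun l => t i l % q) = m)).card : ℂ) * FF q (a m) := by
    rw [← sum_fiberwise_of_maps_to hmaps]
    apply sum_congr rfl
    intro m _
    rw [← nsmul_eq_mul, ← sum_const]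
    apply sum_congr rfl
    intro i hi
    rw [mem_filter] at hi
    have h1 := perC ha hq h3 (t i)
    simp only at h1
    rw [h1, hi.2]
  have e2 : ∑ i ∈ T, FF q (a (t i)) = ((T.card : ℂ) / (q : ℂ) ^ d) * ∑ m ∈ box d q, FF q (a m) +
      ∑ m ∈ box d q, (((T.filter (fun i => (fun l => t i l % q) = m)).card : ℂ) - (T.card : ℂ) / (q : ℂ) ^ d) * FF q (a m) := by
    rw [e1, mul_sum, ← sum_add_distrib]
    apply sum_congr rfl
    intro m _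
    ring
  rw [e2]
  refine (norm_add_le _ _).trans ?_
  rw [mul_add]
  apply add_le_add
  · rw [norm_mul, norm_div, norm_pow, Complex.norm_natCast, Complex.norm_natCast]
    have h1 := full_mean ha q hq h3
    have h2 : ‖∑ m ∈ box d q, FF q (a m)‖ ≤ (q : ℝ) ^ d / Zr q B := by
      rw [le_div_iff₀ hZ]
      exact h1
    calc (T.card : ℝ) / (q : ℝ) ^ d * ‖∑ m ∈ box d q, FF q (a m)‖ ≤ (T.card : ℝ) / (q : ℝ) ^ d * ((q : ℝ) ^ d / Zr q B) :=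
          mul_le_mul_of_nonneg_left h2 (by positivity)
      _ = _ := by
          field_simp
  · refine (norm_sum_le _ _).trans ?_
    have h1 : ∀ m ∈ box d q, ‖(((T.filter (fun i => (fun l => t i l % q) = m)).card : ℂ) - (T.card : ℂ) / (q : ℂ) ^ d) * FF q (a m)‖ ≤
        (T.card : ℝ) / X := by
      intro m hm
      rw [norm_mul]
      have h2 := hT q (Nat.pos_of_ne_zero hq) hqX m hm
      have h3 : ‖(((T.filter (fun i => (fun l => t i l % q) = m)).card : ℂ) - (T.card : ℂ) / (q : ℂ) ^ d)‖ ≤ (T.card : ℝ) / X := by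
        rw [← Real.norm_eq_abs, ← Complex.norm_real] at h2
        refine le_trans (le_of_eq ?_) h2
        congr 1
        push_cast
        rfl
      calc _ ≤ (T.card : ℝ) / X * 1 := mul_le_mul h3 (FF_norm _ _) (norm_nonneg _) (by positivity)
        _ = _ := mul_one _
    refine (sum_le_card_nsmul _ _ _ h1).trans (le_of_eq ?_)
    rw [nsmul_eq_mul, card_box]
    push_cast
    ring

/-- **One family of weights.** -/
theorem one_levelF (d k : ℕ) (hk : 1 ≤ k) (ε : ℝ) (hε : 0 < ε) (A C : ℕ) : ∃ K : ℝ, 0 < K ∧ ∃ E : ℕ,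
    ∀ N M R B X : ℕ, 2 ≤ N → M ≤ N ^ C → 1 ≤ R → B ≠ 0 → B ≤ N ^ A → N ^ E ≤ X →
    ∀ a : (Fin d → ℕ) → Ei, Aff d B a → ∀ (ι : Type) (T : Finset ι) (t : ι → Fin d → ℕ), Equi T t X →
    ∀ S ⊆ SR M N R, (∀ n ∈ S, ¬ 3 ∣ n) → ∀ v : ℕ → ℂ, (∀ n, ‖v n‖ ≤ 1) →
    ∑ i ∈ T, ‖∑ n ∈ S, v n * FF n (a (t i))‖ ^ (2 * k) ≤ (T.card : ℝ) * (K * (N : ℝ) ^ ((k : ℝ) + ε)) := by
  classical
  obtain ⟨K₀, hK₀, h0⟩ := core (k + k) (by omega) ε hε A C
  refine ⟨K₀ + 1, by positivity, 2 * k + 4 * k * (C + 2) * (d + 1), fun N M R B X hN hM hR hB hBA hX a ha ι T t hT S hS h3 v hv => ?_⟩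
  have hN0 : (0 : ℝ) < N := by exact_mod_cast (by omega : 0 < N)
  have hN1 : (1 : ℝ) ≤ N := by exact_mod_cast (by omega : 1 ≤ N)
  have hX1 : 1 ≤ X := (Nat.one_le_pow _ _ (by omega)).trans hX
  have hX0 : (0 : ℝ) < X := by exact_mod_cast hX1
  have hSn : ∀ n ∈ S, n ≠ 0 ∧ ¬ 3 ∣ n := by
    intro n hn
    have := mem_SR.1 (hS hn)
    exact ⟨by omega, h3 n hn⟩
  refine (momentF (fun i => a (t i)) S hSn v hv k T).trans ?_
  have h1 : ∀ g ∈ Fintype.piFinset (fun _ : Fin (k + k) => S), ‖∑ i ∈ T, FF (∏ j, g j ^ sg k j) (a (t i))‖ ≤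
      (T.card : ℝ) * (1 / Zr (∏ j, g j ^ sg k j) B + (N : ℝ) ^ (4 * k * (C + 2) * d) / X) := by
    intro g hg
    rw [Fintype.mem_piFinset] at hg
    have hq0 : ∏ j, g j ^ sg k j ≠ 0 := prod_ne_zero_iff.2 fun j _ => pow_ne_zero _ (hSn _ (hg j)).1
    have hq3 : ¬ 3 ∣ ∏ j, g j ^ sg k j := by
      intro h
      obtain ⟨j, _, hj⟩ := (Nat.Prime.prime Nat.prime_three).exists_mem_finset_dvd h
      exact three_pow (hSn _ (hg j)).2 _ hj
    have hqN : ∏ j, g j ^ sg k j ≤ N ^ (4 * k * (C + 2)) := q_le hN hM g (fun j => hS (hg j))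
    refine (fam_mean ha T t X hT _ hq0 hq3 ?_).trans ?_
    · refine hqN.trans (le_trans (Nat.pow_le_pow_right (by omega) ?_) hX)
      nlinarith [Nat.zero_le (4 * k * (C + 2) * d)]
    apply mul_le_mul_of_nonneg_left _ (by positivity)
    have h2 : ((∏ j, g j ^ sg k j : ℕ) : ℝ) ^ d ≤ (N : ℝ) ^ (4 * k * (C + 2) * d) := by
      rw [pow_mul]
      apply pow_le_pow_left₀ (Nat.cast_nonneg _)
      exact_mod_cast hqN
    gcongr
  refine (sum_le_sum h1).trans ?_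
  rw [← mul_sum, sum_add_distrib]
  apply mul_le_mul_of_nonneg_left _ (by positivity)
  have h2 : ∑ g ∈ Fintype.piFinset (fun _ : Fin (k + k) => S), 1 / (Zr (∏ j, g j ^ sg k j) B : ℝ) ≤ K₀ * (N : ℝ) ^ ((k : ℝ) + ε) := by
    have h3 := h0 N M R B hN hM hR hB hBA (sg k) (sg_cases k)
    have e : ((k + k : ℕ) : ℝ) / 2 + ε = k + ε := by push_cast; ring
    rw [e] at h3
    refine le_trans ?_ h3
    apply sum_le_sum_of_subset_of_nonneg
    · intro g hg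
      rw [Fintype.mem_piFinset] at hg ⊢
      exact fun j => hS (hg j)
    · intro g _ _
      positivity
  have h4 : ∑ _g ∈ Fintype.piFinset (fun _ : Fin (k + k) => S), (N : ℝ) ^ (4 * k * (C + 2) * d) / X ≤ 1 * (N : ℝ) ^ ((k : ℝ) + ε) := by
    rw [sum_const, nsmul_eq_mul, Fintype.card_piFinset_const]
    have h5 : ((S.card ^ (k + k) : ℕ) : ℝ) ≤ (N : ℝ) ^ (2 * k) := by
      have h6 : S.card ^ (k + k) ≤ N ^ (2 * k) := by
        rw [two_mul]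
        exact Nat.pow_le_pow_left ((card_le_card hS).trans (SR_card M N R)) _
      exact_mod_cast h6
    have h6 : (N : ℝ) ^ (2 * k) * (N : ℝ) ^ (4 * k * (C + 2) * d) ≤ X := by
      rw [← pow_add]
      have h8 : N ^ (2 * k + 4 * k * (C + 2) * d) ≤ X := by
        refine le_trans (Nat.pow_le_pow_right (by omega) ?_) hX
        nlinarith [Nat.zero_le (4 * k * (C + 2))]
      exact_mod_cast h8
    have h7 : (1 : ℝ) ≤ (N : ℝ) ^ ((k : ℝ) + ε) := Real.one_le_rpow hN1 (by positivity)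
    calc ((S.card ^ (k + k) : ℕ) : ℝ) * ((N : ℝ) ^ (4 * k * (C + 2) * d) / X) ≤ (N : ℝ) ^ (2 * k) * ((N : ℝ) ^ (4 * k * (C + 2) * d) / X) :=
          mul_le_mul_of_nonneg_right h5 (by positivity)
      _ = ((N : ℝ) ^ (2 * k) * (N : ℝ) ^ (4 * k * (C + 2) * d)) / X := by ring
      _ ≤ 1 := by
          rw [div_le_one hX0]
          exact h6
      _ ≤ _ := by rw [one_mul]; exact h7
  rw [add_mul]
  exact add_le_add h2 h4

/-- the exceptions for one family of weights -/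
lemma exc_oneF (d : ℕ) (δ : ℝ) (hδ : 0 < δ) (A C P : ℕ) : ∃ E : ℕ, ∃ N₀ : ℕ,
    ∀ N M R B X : ℕ, N₀ ≤ N → M ≤ N ^ C → 1 ≤ R → B ≠ 0 → B ≤ N ^ A → N ^ E ≤ X →
    ∀ a : (Fin d → ℕ) → Ei, Aff d B a → ∀ (ι : Type) (T : Finset ι) (t : ι → Fin d → ℕ), Equi T t X →
    ∀ S ⊆ SR M N R, (∀ n ∈ S, ¬ 3 ∣ n) → ∀ v : ℕ → ℂ, (∀ n, ‖v n‖ ≤ 1) →
    ∀ Ex ⊆ T, (∀ i ∈ Ex, (N : ℝ) ^ (1 / 2 + δ / 2) < ‖∑ n ∈ S, v n * FF n (a (t i))‖) → (Ex.card : ℝ) ≤ (N : ℝ) ^ (-(P : ℝ)) * T.card := by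
  classical
  obtain ⟨k, hk⟩ : ∃ k, k = ⌈((P : ℝ) + 2) / δ⌉₊ + 1 := ⟨_, rfl⟩
  have hk1 : 1 ≤ k := by omega
  have hkδ : (P : ℝ) + 2 ≤ k * δ := by
    have h1 : ((P : ℝ) + 2) / δ ≤ k := by
      rw [hk]
      push_cast
      have := Nat.le_ceil (((P : ℝ) + 2) / δ)
      linarith
    rwa [div_le_iff₀ hδ] at h1
  obtain ⟨K, hK, E, h⟩ := one_levelF d k hk1 1 one_pos A C
  obtain ⟨N₁, hN₁⟩ := exists_nat_ge K
  refine ⟨E, N₁ + 2, fun N M R B X hN hM hR hB hBA hX a ha ι T t hT S hS h3 v hv Ex hEx hExb => ?_⟩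
  have hN0 : (0 : ℝ) < N := by exact_mod_cast (by omega : 0 < N)
  have hN1 : (1 : ℝ) ≤ N := by exact_mod_cast (by omega : 1 ≤ N)
  have h1 := h N M R B X (by omega) hM hR hB hBA hX a ha ι T t hT S hS h3 v hv
  have h2 : (Ex.card : ℝ) * ((N : ℝ) ^ (1 / 2 + δ / 2)) ^ (2 * k) ≤ ∑ i ∈ T, ‖∑ n ∈ S, v n * FF n (a (t i))‖ ^ (2 * k) := by
    calc (Ex.card : ℝ) * ((N : ℝ) ^ (1 / 2 + δ / 2)) ^ (2 * k) = ∑ _m ∈ Ex, ((N : ℝ) ^ (1 / 2 + δ / 2)) ^ (2 * k) := by rw [sum_const, nsmul_eq_mul]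
      _ ≤ ∑ i ∈ Ex, ‖∑ n ∈ S, v n * FF n (a (t i))‖ ^ (2 * k) :=
          sum_le_sum fun m hm => pow_le_pow_left₀ (by positivity) (hExb m hm).le _
      _ ≤ _ := sum_le_sum_of_subset_of_nonneg hEx fun m _ _ => by positivity
  have hKN : K ≤ (N : ℝ) ^ (1 : ℝ) := by
    rw [Real.rpow_one]
    refine hN₁.trans ?_
    exact_mod_cast (by omega : N₁ ≤ N)
  have h4 : K * (N : ℝ) ^ ((k : ℝ) + 1) ≤ (N : ℝ) ^ (-(P : ℝ)) * ((N : ℝ) ^ (1 / 2 + δ / 2)) ^ (2 * k) := by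
    calc K * (N : ℝ) ^ ((k : ℝ) + 1) ≤ (N : ℝ) ^ (1 : ℝ) * (N : ℝ) ^ ((k : ℝ) + 1) := mul_le_mul_of_nonneg_right hKN (by positivity)
      _ = (N : ℝ) ^ (1 + ((k : ℝ) + 1)) := by rw [← Real.rpow_add hN0]
      _ ≤ (N : ℝ) ^ (-(P : ℝ) + (1 / 2 + δ / 2) * (2 * k : ℕ)) := by
          apply Real.rpow_le_rpow_of_exponent_le hN1
          push_cast
          nlinarith
      _ = _ := by
          rw [← Real.rpow_natCast ((N : ℝ) ^ (1 / 2 + δ / 2)), ← Real.rpow_mul hN0.le, Real.rpow_add hN0]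
  have h6 : (Ex.card : ℝ) * ((N : ℝ) ^ (1 / 2 + δ / 2)) ^ (2 * k) ≤ ((N : ℝ) ^ (-(P : ℝ)) * T.card) * ((N : ℝ) ^ (1 / 2 + δ / 2)) ^ (2 * k) := by
    refine (h2.trans h1).trans ?_
    calc (T.card : ℝ) * (K * (N : ℝ) ^ ((k : ℝ) + 1)) ≤ (T.card : ℝ) * ((N : ℝ) ^ (-(P : ℝ)) * ((N : ℝ) ^ (1 / 2 + δ / 2)) ^ (2 * k)) :=
          mul_le_mul_of_nonneg_left h4 (by positivity)
      _ = _ := by ring
  exact le_of_mul_le_mul_right h6 (by positivity)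

open Classical in
/-- **The law for equidistributed families.** -/
theorem lawF (d A C : ℕ) (δ : ℝ) (hδ : 0 < δ) : ∃ c : ℝ, 0 < c ∧ ∃ y₀ : ℕ, ∀ (y X B : ℕ) (a : (Fin d → ℕ) → Ei), y₀ ≤ y → Aff d B a →
    B ≠ 0 → B ≤ y ^ A → ∀ (ι : Type) (T : Finset ι) (t : ι → Fin d → ℕ), Equi T t X →
    ∀ (κ : Type) (w : κ → ℕ → ℂ) (Λ : ℕ → Finset κ), (∀ i n, ‖w i n‖ ≤ 1) → (∀ N, (Λ N).card ≤ N ^ A) →
    ((T.filter (fun i => ¬ ∀ N : ℕ, y ≤ N → (N : ℝ) ≤ (X : ℝ) ^ c → Good w Λ C δ N (a (t i)))).card : ℝ) ≤ (T.card : ℝ) / (y : ℝ) ^ A := by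
  obtain ⟨P, hP⟩ : ∃ P, P = (A + 4 + 4 * (C + 3)) + (A + 4) := ⟨_, rfl⟩
  obtain ⟨E, N₁, h⟩ := exc_oneF d δ hδ A (C + 2) P
  obtain ⟨N₂, hred⟩ := good_of 3 (by norm_num) (dvd_refl 3) C δ hδ
  obtain ⟨c, hc⟩ : ∃ c : ℝ, c = 1 / (E + 1) := ⟨_, rfl⟩
  have hc0 : 0 < c := by rw [hc]; positivity
  have hc1 : c ≤ 1 := by
    rw [hc, div_le_one (by positivity)]
    have : (0 : ℝ) ≤ E := Nat.cast_nonneg _
    linarith
  refine ⟨c, hc0, N₁ + N₂ + 2, fun y X B a hy ha hB hBy ι T t hT κ w Λ hw hΛ => ?_⟩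
  obtain ⟨G, hG⟩ : ∃ G : ℕ → (κ × (ZMod 3 × ZMod 3) × ((ℕ × ℕ) × (ℕ × ℕ))) → ι → ℂ,
      G = fun N q i => ∑ c ∈ SL 3 (q.2.2.2.1 / q.2.2.1.1) N (2 ^ q.2.2.1.2), WW w q c * FF c (a (t i)) := ⟨_, rfl⟩
  obtain ⟨Ex, hEx⟩ : ∃ Ex : ℕ → (κ × (ZMod 3 × ZMod 3) × ((ℕ × ℕ) × (ℕ × ℕ))) → Finset ι,
      Ex = fun (N : ℕ) q => T.filter (fun i => (N : ℝ) ≤ (X : ℝ) ^ c ∧ (N : ℝ) ^ (1 / 2 + δ / 2) < ‖G N q i‖) := ⟨_, rfl⟩
  have hNL : ∀ N : ℕ, 1 ≤ N → (N : ℝ) ≤ (X : ℝ) ^ c → 1 ≤ X ∧ N ^ (E + 1) ≤ X := by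
    intro N hN1 hN
    have hL1 : 1 ≤ X := by
      apply Nat.one_le_iff_ne_zero.2
      rintro rfl
      rw [Nat.cast_zero, Real.zero_rpow hc0.ne'] at hN
      have : (1 : ℝ) ≤ N := by exact_mod_cast hN1
      linarith
    refine ⟨hL1, ?_⟩
    have hL0 : (0 : ℝ) ≤ X := Nat.cast_nonneg _
    have h1 : (N : ℝ) ^ (E + 1) ≤ X := by
      calc (N : ℝ) ^ (E + 1) ≤ ((X : ℝ) ^ c) ^ (E + 1) := pow_le_pow_left₀ (Nat.cast_nonneg _) hN _
        _ = X := by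
            rw [← Real.rpow_natCast, ← Real.rpow_mul hL0, hc]
            push_cast
            rw [one_div, inv_mul_cancel₀ (by positivity), Real.rpow_one]
    exact_mod_cast h1
  have hexc : ∀ N : ℕ, y ≤ N → ∀ q : κ × (ZMod 3 × ZMod 3) × ((ℕ × ℕ) × (ℕ × ℕ)), q ∈ PP Λ C N →
      ((Ex N q).card : ℝ) ≤ (N : ℝ) ^ (-(P : ℝ)) * T.card := by
    intro N hyN q hq
    have hN0 : (0 : ℝ) < N := by exact_mod_cast (by omega : 0 < N)
    by_cases hNc : (N : ℝ) ≤ (X : ℝ) ^ c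
    · obtain ⟨hL1, hL2⟩ := hNL N (by omega) hNc
      unfold PP at hq
      simp only [mem_product, mem_univ, mem_range, true_and] at hq
      refine h N (q.2.2.2.1 / q.2.2.1.1) (2 ^ q.2.2.1.2) B X (by omega) ?_ (Nat.one_le_pow _ _ (by norm_num)) hB
        (hBy.trans (Nat.pow_le_pow_left hyN A)) ((Nat.pow_le_pow_right (by omega) (by omega)).trans hL2) a ha ι T t hT
        (SL 3 (q.2.2.2.1 / q.2.2.1.1) N (2 ^ q.2.2.1.2)) (filter_subset _ _) ?_ (WW w q) (WW_norm w hw q) (Ex N q) ?_ ?_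
      · exact (Nat.div_le_self _ _).trans (by omega)
      · intro n hn
        rw [mem_SL] at hn
        exact fun h => Nat.not_coprime_of_dvd_of_dvd (by norm_num : 1 < 3) h (dvd_refl 3) hn.2
      · rw [hEx]
        exact filter_subset _ _
      · intro m hm
        rw [hEx, mem_filter, hG] at hm
        exact hm.2.2
    · have : Ex N q = ∅ := by
        rw [hEx]
        apply filter_false_of_mem
        intro m _ hm
        exact hNc hm.1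
      rw [this, card_empty, Nat.cast_zero]
      positivity
  have hsub : T.filter (fun i => ¬ ∀ N : ℕ, y ≤ N → (N : ℝ) ≤ (X : ℝ) ^ c → Good w Λ C δ N (a (t i))) ⊆
      (Icc y X).biUnion (fun N => (PP Λ C N).biUnion (fun q => Ex N q)) := by
    intro m hm
    rw [mem_filter] at hm
    by_contra hcon
    apply hm.2
    intro N hyN hNc
    obtain ⟨hL1, hL2⟩ := hNL N (by omega) hNc
    apply hred N (by omega)
    intro q hq
    by_contra hcon2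
    push Not at hcon2
    apply hcon
    rw [mem_biUnion]
    refine ⟨N, ?_, ?_⟩
    · rw [mem_Icc]
      exact ⟨hyN, (Nat.le_self_pow (by omega) N).trans hL2⟩
    rw [mem_biUnion]
    refine ⟨q, hq, ?_⟩
    rw [hEx, mem_filter, hG]
    exact ⟨hm.1, hNc, hcon2⟩
  have hone : ∀ N ∈ Icc y X, (((PP Λ C N).biUnion (fun q => Ex N q)).card : ℝ) ≤ (N : ℝ) ^ (-((A + 4 : ℕ) : ℝ)) * T.card := by
    intro N hN
    rw [mem_Icc] at hN
    have hN0 : (0 : ℝ) < N := by exact_mod_cast (by omega : 0 < N)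
    have h1 : (((PP Λ C N).biUnion (fun q => Ex N q)).card : ℝ) ≤ ∑ q ∈ PP Λ C N, ((Ex N q).card : ℝ) := by
      exact_mod_cast card_biUnion_le
    refine h1.trans ((sum_le_sum (fun q hq => hexc N hN.1 q hq)).trans ?_)
    rw [sum_const, nsmul_eq_mul]
    have h2 : ((PP Λ C N).card : ℝ) ≤ (N : ℝ) ^ ((A + 4 + 4 * (C + 3) : ℕ) : ℝ) := by
      rw [Real.rpow_natCast]
      exact_mod_cast PP_card Λ A C N (by omega) (hΛ N)
    calc ((PP Λ C N).card : ℝ) * ((N : ℝ) ^ (-(P : ℝ)) * T.card) ≤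
          (N : ℝ) ^ ((A + 4 + 4 * (C + 3) : ℕ) : ℝ) * ((N : ℝ) ^ (-(P : ℝ)) * T.card) :=
          mul_le_mul_of_nonneg_right h2 (by positivity)
      _ = (N : ℝ) ^ (-((A + 4 : ℕ) : ℝ)) * T.card := by
          rw [← mul_assoc, ← Real.rpow_add hN0, hP]
          congr 2
          push_cast
          ring
  have hcard : ((T.filter (fun i => ¬ ∀ N : ℕ, y ≤ N → (N : ℝ) ≤ (X : ℝ) ^ c → Good w Λ C δ N (a (t i)))).card : ℝ) ≤
      ∑ N ∈ Icc y X, (N : ℝ) ^ (-((A + 4 : ℕ) : ℝ)) * T.card := by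
    have h1 := (card_le_card hsub).trans card_biUnion_le
    have h2 : ((T.filter (fun i => ¬ ∀ N : ℕ, y ≤ N → (N : ℝ) ≤ (X : ℝ) ^ c → Good w Λ C δ N (a (t i)))).card : ℝ) ≤
        ∑ N ∈ Icc y X, (((PP Λ C N).biUnion (fun q => Ex N q)).card : ℝ) := by exact_mod_cast h1
    exact h2.trans (sum_le_sum hone)
  refine hcard.trans ?_
  rw [← sum_mul]
  calc (∑ N ∈ Icc y X, (N : ℝ) ^ (-((A + 4 : ℕ) : ℝ))) * T.card ≤ (1 / (y : ℝ) ^ A) * T.card :=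
        mul_le_mul_of_nonneg_right (sum_tail A y X (by omega)) (by positivity)
    _ = _ := by ring

end Pool.Agent.K7.H67.CUB
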