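import Pool.Agent.K7.H67.BG.Fam
import Pool.Agent.K7.H67.CUB.Law
import Pool.Agent.X22.ND3

set_option autoImplicit false

/-! From exponential sums modulo a prime to the residue classes modulo small numbers of the least residues (helper67). -/

namespace Pool.Agent.K7.H67.CUB
open Finset
open Pool.Agent.H807R2.Dav
open Pool.Agent.TH894.NE (box mem_box card_box)

/-- the sums over intervals -/
lemma int_sum {p : ℕ} (hp : 1 < p) [NeZero p] (S : ℕ) :
    ∑ j ∈ Ico 1 p, ‖∑ s ∈ range S, (ZMod.stdAddChar (-((j : ZMod p) * (s : ZMod p))) : ℂ)‖ ≤ 2 * p * (1 + Real.log p) := by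
  have hp0 : (0 : ℝ) < p := by exact_mod_cast (by omega : 0 < p)
  have h1 : ∀ j ∈ Ico 1 p, ‖∑ s ∈ range S, (ZMod.stdAddChar (-((j : ZMod p) * (s : ZMod p))) : ℂ)‖ ≤
      p * (1 / (j : ℝ) + 1 / ((p : ℝ) - j)) := by
    intro j hj
    rw [mem_Ico] at hj
    have hj0 : (0 : ℝ) < j := by exact_mod_cast (by omega : 0 < j)
    have hjp : (j : ℝ) < p := by exact_mod_cast hj.2
    have e1 : ‖∑ s ∈ range S, (ZMod.stdAddChar (-((j : ZMod p) * (s : ZMod p))) : ℂ)‖ = ‖∑ s ∈ Ico 0 S, ee (s * ((j : ℝ) / p))‖ := by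
      rw [← RCLike.norm_conj (∑ s ∈ Ico 0 S, ee (s * ((j : ℝ) / p))), map_sum, range_eq_Ico]
      congr 1
      refine sum_congr rfl fun s _ => ?_
      rw [AddChar.map_neg_eq_conj]
      congr 1
      have e2 : ((j : ZMod p) * (s : ZMod p)) = (((j * s : ℕ) : ℤ) : ZMod p) := by push_cast; rfl
      rw [e2, ZMod.stdAddChar_coe]
      unfold ee
      congr 1
      push_cast
      ring
    rw [e1]
    have h2 : (((S : ℕ) : ℝ) - ((0 : ℕ) : ℝ)) ≤ (S : ℝ) := by simp
    have h3 := geo_bound 0 S (Nat.zero_le _) h2 ((j : ℝ) / p)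
    have hm0 : 0 < min ((j : ℝ) / p) (1 - (j : ℝ) / p) := by
      apply lt_min
      · positivity
      · rw [sub_pos, div_lt_one hp0]; exact hjp
    have h4 : 4 * min ((j : ℝ) / p) (1 - (j : ℝ) / p) ≤ dd ((j : ℝ) / p) :=
      dd_ge (by positivity) ((div_le_one hp0).2 hjp.le)
    have h5 := KK_le' (Nat.cast_nonneg S) (by positivity) h4
    refine (h3.trans h5).trans ?_
    have h6 : 3 / (4 * min ((j : ℝ) / p) (1 - (j : ℝ) / p)) ≤ 1 / min ((j : ℝ) / p) (1 - (j : ℝ) / p) := by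
      rw [div_le_div_iff₀ (by positivity) hm0]
      nlinarith
    refine h6.trans ?_
    have hpj : 0 < (p : ℝ) - j := by linarith
    have e3 : 1 / ((j : ℝ) / p) = p * (1 / (j : ℝ)) := by field_simp
    have e4 : 1 / (1 - (j : ℝ) / p) = p * (1 / ((p : ℝ) - j)) := by
      rw [one_sub_div hp0.ne']
      field_simp
    rw [mul_add]
    rcases min_choice ((j : ℝ) / p) (1 - (j : ℝ) / p) with h7 | h7
    · rw [h7, e3]
      have : 0 ≤ (p : ℝ) * (1 / ((p : ℝ) - j)) := by positivity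
      linarith
    · rw [h7, e4]
      have : 0 ≤ (p : ℝ) * (1 / (j : ℝ)) := by positivity
      linarith
  refine (sum_le_sum h1).trans ?_
  rw [← mul_sum, sum_add_distrib]
  have h2 : ∑ j ∈ Ico 1 p, 1 / (j : ℝ) ≤ 1 + Real.log p := by
    refine le_trans (sum_le_sum_of_subset_of_nonneg ?_ fun _ _ _ => by positivity) (sum_inv_range p)
    intro j hj
    rw [mem_Ico] at hj
    exact mem_range.2 hj.2
  have h3 : ∑ j ∈ Ico 1 p, 1 / ((p : ℝ) - j) ≤ 1 + Real.log p := by
    refine le_trans (sum_le_sum_of_subset_of_nonneg ?_ ?_) (sum_inv_range' p)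
    · intro j hj
      rw [mem_Ico] at hj
      exact mem_range.2 hj.2
    · intro j hj _
      rw [mem_range] at hj
      have : (j : ℝ) < p := by exact_mod_cast hj
      have : 0 < (p : ℝ) - j := by linarith
      positivity
  calc (p : ℝ) * (∑ j ∈ Ico 1 p, 1 / (j : ℝ) + ∑ j ∈ Ico 1 p, 1 / ((p : ℝ) - j)) ≤ p * ((1 + Real.log p) + (1 + Real.log p)) := by gcongr
    _ = _ := by ring

lemma sum_ne {p : ℕ} [NeZero p] (F : ZMod p → ℝ) : ∑ j ∈ univ.erase (0 : ZMod p), F j = ∑ j ∈ Ico 1 p, F (j : ZMod p) := by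
  refine sum_nbij' (fun j => j.val) (fun j => (j : ZMod p)) ?_ ?_ ?_ ?_ ?_
  · intro j hj
    rw [mem_erase] at hj
    rw [mem_Ico]
    refine ⟨?_, ZMod.val_lt j⟩
    rw [Nat.one_le_iff_ne_zero, ne_eq, ZMod.val_eq_zero]
    exact hj.1
  · intro j hj
    rw [mem_Ico] at hj
    rw [mem_erase]
    exact ⟨Pool.Agent.K7.H67.BG.natCast_ne hj.1 hj.2, mem_univ _⟩
  · intro j _
    exact ZMod.natCast_zmod_val j
  · intro j hj
    rw [mem_Ico] at hj
    exact ZMod.val_cast_of_lt hj.2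
  · intro j _
    rw [ZMod.natCast_zmod_val]

/-- the numbers of the members in intervals -/
lemma count_int {p : ℕ} [Fact p.Prime] {ι : Type} (T : Finset ι) (z : ι → ZMod p) (ρ : ℝ) (hρ : 0 ≤ ρ)
    (h : ∀ j : ZMod p, j ≠ 0 → ‖∑ i ∈ T, (ZMod.stdAddChar (j * z i) : ℂ)‖ ≤ T.card * ρ) (S : ℕ) (hS : S ≤ p) :
    |((T.filter (fun i => (z i).val < S)).card : ℝ) - T.card * S / p| ≤ T.card * (ρ * (2 * (1 + Real.log p))) := by
  classical
  have hpp : p.Prime := Fact.out
  have hp1 : 1 < p := hpp.one_lt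
  have hp0 : (0 : ℝ) < p := by exact_mod_cast (by omega : 0 < p)
  have hpC : (p : ℂ) ≠ 0 := by exact_mod_cast hpp.ne_zero
  set ψ : AddChar (ZMod p) ℂ := ZMod.stdAddChar with hψ
  have hprim : ψ.IsPrimitive := ZMod.isPrimitive_stdAddChar p
  have e1 : ((T.filter (fun i => (z i).val < S)).card : ℂ) =
      ∑ j : ZMod p, (1 / (p : ℂ)) * ((∑ i ∈ T, ψ (j * z i)) * ∑ s ∈ range S, ψ (-(j * (s : ZMod p)))) := by
    have e2 : ∀ i ∈ T, (if (z i).val < S then (1 : ℂ) else 0) =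
        ∑ s ∈ range S, (1 / (p : ℂ)) * ∑ j : ZMod p, ψ (j * (z i - (s : ZMod p))) := by
      intro i _
      have e3 : ∀ s ∈ range S, (1 / (p : ℂ)) * ∑ j : ZMod p, ψ (j * (z i - (s : ZMod p))) = if s = (z i).val then 1 else 0 := by
        intro s hs
        rw [mem_range] at hs
        rw [AddChar.sum_mulShift _ hprim, ZMod.card]
        by_cases hsz : s = (z i).val
        · rw [if_pos hsz, if_pos, one_div, inv_mul_cancel₀ hpC]
          rw [hsz, ZMod.natCast_zmod_val, sub_self]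
        · rw [if_neg hsz, if_neg, Nat.cast_zero, mul_zero]
          intro h0
          apply hsz
          rw [sub_eq_zero] at h0
          rw [h0, ZMod.val_cast_of_lt (by omega)]
      rw [sum_congr rfl e3, sum_ite_eq']
      simp only [mem_range]
    have e4 : ∀ j : ZMod p, (1 / (p : ℂ)) * ((∑ i ∈ T, ψ (j * z i)) * ∑ s ∈ range S, ψ (-(j * (s : ZMod p)))) =
        ∑ i ∈ T, ∑ s ∈ range S, (1 / (p : ℂ)) * ψ (j * (z i - (s : ZMod p))) := by
      intro j
      rw [sum_mul_sum, mul_sum]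
      refine sum_congr rfl fun i _ => ?_
      rw [mul_sum]
      refine sum_congr rfl fun s _ => ?_
      rw [← AddChar.map_add_eq_mul]
      congr 2
      ring
    rw [sum_congr rfl (fun j _ => e4 j), sum_comm, card_filter]
    push_cast
    rw [sum_congr rfl e2]
    refine sum_congr rfl fun i _ => ?_
    rw [sum_comm]
    refine sum_congr rfl fun s _ => ?_
    rw [mul_sum]
  have e5 : ((T.filter (fun i => (z i).val < S)).card : ℂ) - T.card * S / p =
      ∑ j ∈ univ.erase (0 : ZMod p), (1 / (p : ℂ)) * ((∑ i ∈ T, ψ (j * z i)) * ∑ s ∈ range S, ψ (-(j * (s : ZMod p)))) := by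
    rw [e1, ← add_sum_erase univ _ (mem_univ (0 : ZMod p))]
    have e6 : (1 / (p : ℂ)) * ((∑ i ∈ T, ψ (0 * z i)) * ∑ s ∈ range S, ψ (-((0 : ZMod p) * (s : ZMod p)))) = T.card * S / p := by
      simp only [zero_mul, neg_zero, AddChar.map_zero_eq_one, sum_const, card_range, nsmul_eq_mul, mul_one]
      ring
    rw [e6]
    ring
  have e7 : |((T.filter (fun i => (z i).val < S)).card : ℝ) - T.card * S / p| =
      ‖((T.filter (fun i => (z i).val < S)).card : ℂ) - T.card * S / p‖ := by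
    rw [← Real.norm_eq_abs, ← Complex.norm_real]
    congr 1
    push_cast
    rfl
  rw [e7, e5]
  refine (norm_sum_le _ _).trans ?_
  have h1 : ∀ j ∈ univ.erase (0 : ZMod p), ‖(1 / (p : ℂ)) * ((∑ i ∈ T, ψ (j * z i)) * ∑ s ∈ range S, ψ (-(j * (s : ZMod p))))‖ ≤
      (1 / (p : ℝ)) * (T.card * ρ) * ‖∑ s ∈ range S, ψ (-(j * (s : ZMod p)))‖ := by
    intro j hj
    rw [mem_erase] at hj
    rw [norm_mul, norm_mul, norm_div, norm_one, Complex.norm_natCast, mul_assoc]
    apply mul_le_mul_of_nonneg_left _ (by positivity)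
    exact mul_le_mul_of_nonneg_right (h j hj.1) (norm_nonneg _)
  refine (sum_le_sum h1).trans ?_
  rw [← mul_sum, sum_ne (fun j => ‖∑ s ∈ range S, ψ (-(j * (s : ZMod p)))‖)]
  have h2 := int_sum hp1 S
  calc (1 / (p : ℝ)) * (T.card * ρ) * ∑ j ∈ Ico 1 p, ‖∑ s ∈ range S, ψ (-((j : ZMod p) * (s : ZMod p)))‖ ≤
        (1 / (p : ℝ)) * (T.card * ρ) * (2 * p * (1 + Real.log p)) := mul_le_mul_of_nonneg_left h2 (by positivity)
    _ = _ := by
        field_simp

/-- the numbers of the members in residue classes -/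
lemma count_class {p : ℕ} [Fact p.Prime] {ι : Type} (T : Finset ι) (v : ι → ZMod p) (ρ : ℝ) (hρ : 0 ≤ ρ)
    (h : ∀ j : ZMod p, j ≠ 0 → ‖∑ i ∈ T, (ZMod.stdAddChar (j * v i) : ℂ)‖ ≤ T.card * ρ) (q r : ℕ) (hq1 : 1 ≤ q) (hq : q < p) (hr : r < q) :
    |((T.filter (fun i => (v i).val % q = r)).card : ℝ) - T.card / q| ≤ T.card * (ρ * (2 * (1 + Real.log p)) + 1 / p) := by
  classical
  have hpp : p.Prime := Fact.out
  have hp1 : 1 < p := hpp.one_lt
  have hp0 : (0 : ℝ) < p := by exact_mod_cast (by omega : 0 < p)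
  have hq0 : (0 : ℝ) < q := by exact_mod_cast hq1
  have hqz : (q : ZMod p) ≠ 0 := Pool.Agent.K7.H67.BG.natCast_ne hq1 hq
  obtain ⟨S, hS⟩ : ∃ S, S = (p - 1 - r) / q + 1 := ⟨_, rfl⟩
  obtain ⟨z, hz⟩ : ∃ z : ι → ZMod p, z = fun i => (q : ZMod p)⁻¹ * (v i - r) := ⟨_, rfl⟩
  have hzv : ∀ i, v i = (q : ZMod p) * z i + r := by
    intro i
    rw [hz]
    field_simp
    ring
  have hS1 : q * S ≤ p - 1 - r + q := by
    rw [hS, mul_add, mul_one]
    exact Nat.add_le_add_right (Nat.mul_div_le _ _) _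
  have hS2 : p - 1 - r < q * S := by
    rw [hS]
    exact Nat.lt_mul_div_succ _ (by omega)
  have hSp : S ≤ p := by
    rw [hS]
    have := Nat.div_le_self (p - 1 - r) q
    omega
  have e1 : T.filter (fun i => (v i).val % q = r) = T.filter (fun i => (z i).val < S) := by
    apply filter_congr
    intro i _
    constructor
    · intro h1
      obtain ⟨s, hs⟩ : ∃ s, s = (v i).val / q := ⟨_, rfl⟩
      have h2 : (v i).val = q * s + r := by
        rw [hs, ← h1]
        exact (Nat.div_add_mod _ _).symm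
      have h3 : (v i).val < p := ZMod.val_lt _
      have h4 : z i = (s : ZMod p) := by
        have h5 : v i = ((q * s + r : ℕ) : ZMod p) := by rw [← h2, ZMod.natCast_zmod_val]
        rw [hz]
        simp only
        rw [h5]
        push_cast
        field_simp
        ring
      have h5 : s ≤ q * s := Nat.le_mul_of_pos_left s (by omega)
      rw [h4, ZMod.val_cast_of_lt (by omega), hS, Nat.lt_succ_iff, Nat.le_div_iff_mul_le (by omega), mul_comm]
      omega
    · intro h1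
      have h2 : (z i).val ≤ (p - 1 - r) / q := by omega
      rw [Nat.le_div_iff_mul_le (by omega), mul_comm] at h2
      have h3 : v i = ((q * (z i).val + r : ℕ) : ZMod p) := by
        rw [hzv i]
        push_cast
        rw [ZMod.natCast_zmod_val]
      rw [h3, ZMod.val_cast_of_lt (by omega), Nat.mul_add_mod, Nat.mod_eq_of_lt hr]
  have h1 := count_int T z ρ hρ (by
    intro j hj
    have h2 := h (j * (q : ZMod p)⁻¹) (mul_ne_zero hj (inv_ne_zero hqz))
    have e2 : ∑ i ∈ T, (ZMod.stdAddChar (j * z i) : ℂ) = (ZMod.stdAddChar (-(j * (q : ZMod p)⁻¹ * (r : ZMod p))) : ℂ) *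
        ∑ i ∈ T, (ZMod.stdAddChar (j * (q : ZMod p)⁻¹ * v i) : ℂ) := by
      rw [mul_sum]
      refine sum_congr rfl fun i _ => ?_
      rw [← AddChar.map_add_eq_mul, hz]
      congr 1
      ring
    rw [e2, norm_mul, AddChar.norm_apply, one_mul]
    exact h2) S hSp
  rw [e1]
  have h2 : |(T.card : ℝ) * S / p - T.card / q| ≤ T.card * (1 / p) := by
    have e3 : (T.card : ℝ) * S / p - T.card / q = T.card * (((q : ℝ) * S - p) / (q * p)) := by
      have hp' : (p : ℝ) ≠ 0 := hp0.ne'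
      have hq' : (q : ℝ) ≠ 0 := hq0.ne'
      generalize (T.card : ℝ) = c at *
      generalize (p : ℝ) = x at *
      generalize (q : ℝ) = y at *
      generalize (S : ℝ) = z at *
      field_simp
    rw [e3, abs_mul, abs_of_nonneg (Nat.cast_nonneg T.card)]
    apply mul_le_mul_of_nonneg_left _ (Nat.cast_nonneg _)
    rw [abs_div, abs_of_pos (mul_pos hq0 hp0), div_le_div_iff₀ (mul_pos hq0 hp0) hp0, one_mul]
    apply mul_le_mul_of_nonneg_right _ hp0.le
    rw [abs_le]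
    have h3 : q * S ≤ p + q := by omega
    have h4 : p ≤ q * S + q := by omega
    have h3' : (q : ℝ) * S ≤ p + q := by exact_mod_cast h3
    have h4' : (p : ℝ) ≤ q * S + q := by exact_mod_cast h4
    constructor <;> linarith
  have e4 : ((T.filter (fun i => (z i).val < S)).card : ℝ) - T.card / q =
      (((T.filter (fun i => (z i).val < S)).card : ℝ) - T.card * S / p) + ((T.card : ℝ) * S / p - T.card / q) := by ring
  rw [e4]
  refine (abs_add_le _ _).trans ?_
  rw [mul_add]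
  exact add_le_add h1 h2

/-- the equidistribution in one dimension -/
def EquiD {ι : Type} (T : Finset ι) (t : ι → ℕ) (X : ℕ) : Prop :=
  ∀ q : ℕ, 1 ≤ q → q ≤ X → ∀ r < q, |((T.filter (fun i => t i % q = r)).card : ℝ) - (T.card : ℝ) / q| ≤ (T.card : ℝ) / X

/-- families with a power saving in the exponential sums modulo a prime -/
theorem equi_of (γ : ℝ) (hγ : 0 < γ) (hγ1 : γ ≤ 1) : ∃ p₀ : ℕ, ∀ p : ℕ, p₀ ≤ p → p.Prime → ∀ (ι : Type) (T : Finset ι) (t : ι → ℕ),
    (∀ i ∈ T, t i < p) →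
    (∀ j : ℕ, 1 ≤ j → j < p → ‖∑ i ∈ T, ee ((j : ℝ) * ((t i : ℝ) / p))‖ ≤ T.card * (p : ℝ) ^ (-γ)) →
    ∀ X : ℕ, (X : ℝ) ≤ (p : ℝ) ^ (γ / 2) → EquiD T t X := by
  classical
  obtain ⟨N₁, hN₁⟩ := Pool.Agent.X22.ND.absorb 3 (γ / 2) (by norm_num) (by positivity)
  refine ⟨N₁ + 2, fun p hp hpp ι T t ht h X hX => ?_⟩
  have : Fact p.Prime := ⟨hpp⟩
  have hp0 : (0 : ℝ) < p := by exact_mod_cast hpp.pos
  have hp1 : (1 : ℝ) < p := by exact_mod_cast hpp.one_lt
  intro q hq1 hqX r hr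
  have hX0 : (0 : ℝ) < X := by exact_mod_cast (by omega : 0 < X)
  have hqp : q < p := by
    have h1 : (q : ℝ) ≤ (p : ℝ) ^ (γ / 2) := le_trans (by exact_mod_cast hqX) hX
    have h2 : (p : ℝ) ^ (γ / 2) < (p : ℝ) ^ (1 : ℝ) := Real.rpow_lt_rpow_of_exponent_lt hp1 (by linarith)
    rw [Real.rpow_one] at h2
    exact_mod_cast h1.trans_lt h2
  obtain ⟨v, hv⟩ : ∃ v : ι → ZMod p, v = fun i => (t i : ZMod p) := ⟨_, rfl⟩
  have hval : ∀ i ∈ T, (v i).val = t i := by
    intro i hi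
    rw [hv]
    exact ZMod.val_cast_of_lt (ht i hi)
  have h1 := count_class T v ((p : ℝ) ^ (-γ)) (by positivity) (by
    intro j hj
    have hj1 : 1 ≤ j.val := by
      rw [Nat.one_le_iff_ne_zero, ne_eq, ZMod.val_eq_zero]
      exact hj
    have h2 := h j.val hj1 (ZMod.val_lt j)
    refine le_trans (le_of_eq ?_) h2
    congr 1
    refine sum_congr rfl fun i hi => ?_
    rw [← hval i hi, Pool.Agent.K7.H49.PR.ee_val, ZMod.natCast_zmod_val]) q r hq1 hqp hr
  have e1 : T.filter (fun i => (v i).val % q = r) = T.filter (fun i => t i % q = r) := by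
    apply filter_congr
    intro i hi
    rw [hval i hi]
  rw [e1] at h1
  refine h1.trans ?_
  rw [div_eq_mul_one_div (T.card : ℝ) (X : ℝ)]
  apply mul_le_mul_of_nonneg_left _ (Nat.cast_nonneg _)
  have h3 := hN₁ p (by omega)
  have h4 : 0 ≤ Real.log p := Real.log_nonneg hp1.le
  have h5 : 1 / (p : ℝ) ≤ (p : ℝ) ^ (-γ) := by
    rw [one_div, ← Real.rpow_neg_one]
    exact Real.rpow_le_rpow_of_exponent_le hp1.le (by linarith)
  have h6 : (p : ℝ) ^ (-γ) * (2 * (1 + Real.log p)) + 1 / p ≤ (p : ℝ) ^ (-γ) * (p : ℝ) ^ (γ / 2) := by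
    have h7 : 0 ≤ (p : ℝ) ^ (-γ) := by positivity
    calc (p : ℝ) ^ (-γ) * (2 * (1 + Real.log p)) + 1 / p ≤ (p : ℝ) ^ (-γ) * (2 * (1 + Real.log p)) + (p : ℝ) ^ (-γ) := by linarith
      _ ≤ (p : ℝ) ^ (-γ) * (3 * (Real.log p + 1)) := by nlinarith
      _ ≤ _ := mul_le_mul_of_nonneg_left h3 h7
  refine h6.trans ?_
  rw [← Real.rpow_add hp0]
  have e2 : -γ + γ / 2 = -(γ / 2) := by ring
  rw [e2, Real.rpow_neg hp0.le, ← one_div]
  exact one_div_le_one_div_of_le hX0 hX

/-- lines -/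
lemma equi_line {ι : Type} (T : Finset ι) (t : ι → ℕ) (X : ℕ) (h : EquiD T t X) : Equi T (fun i => fun _ : Fin 1 => t i) X := by
  classical
  intro q hq1 hqX m hm
  rw [mem_box] at hm
  have h1 := h q hq1 hqX (m 0) (hm 0)
  rw [pow_one]
  refine le_trans (le_of_eq ?_) h1
  congr 4
  apply filter_congr
  intro i _
  constructor
  · intro h2
    exact congrFun h2 0
  · intro h2
    funext l
    rw [Subsingleton.elim l 0]
    exact h2

/-- parallelograms -/
lemma equi_par {ι ι' : Type} (T : Finset ι) (T' : Finset ι') (t : ι → ℕ) (t' : ι' → ℕ) (X : ℕ) (h : EquiD T t X) (h' : EquiD T' t' X) :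
    Equi (T ×ˢ T') (fun z => ![t z.1, t' z.2]) (X / 2) := by
  classical
  intro q hq1 hqX m hm
  rw [mem_box] at hm
  have hqX' : q ≤ X := hqX.trans (Nat.div_le_self _ _)
  have h1 := h q hq1 hqX' (m 0) (hm 0)
  have h2 := h' q hq1 hqX' (m 1) (hm 1)
  have hq0 : (0 : ℝ) < q := by exact_mod_cast hq1
  have hX2 : 1 ≤ X / 2 := hq1.trans hqX
  have hX0 : (0 : ℝ) < X := by exact_mod_cast (by omega : 0 < X)
  have e1 : ((T ×ˢ T').filter (fun z => (fun l => (![t z.1, t' z.2] : Fin 2 → ℕ) l % q) = m)) =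
      (T.filter (fun i => t i % q = m 0)) ×ˢ (T'.filter (fun i => t' i % q = m 1)) := by
    rw [← filter_product]
    apply filter_congr
    intro z _
    constructor
    · intro h3
      exact ⟨congrFun h3 0, congrFun h3 1⟩
    · rintro ⟨h3, h4⟩
      funext l
      fin_cases l
      · exact h3
      · exact h4
  rw [e1, card_product, card_product]
  push_cast
  obtain ⟨a, ha⟩ : ∃ a : ℝ, a = ((T.filter (fun i => t i % q = m 0)).card : ℝ) := ⟨_, rfl⟩
  obtain ⟨b, hb⟩ : ∃ b : ℝ, b = ((T'.filter (fun i => t' i % q = m 1)).card : ℝ) := ⟨_, rfl⟩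
  obtain ⟨A, hA⟩ : ∃ A : ℝ, A = (T.card : ℝ) := ⟨_, rfl⟩
  obtain ⟨B, hB⟩ : ∃ B : ℝ, B = (T'.card : ℝ) := ⟨_, rfl⟩
  rw [← ha, ← hA] at h1
  rw [← hb, ← hB] at h2
  rw [← ha, ← hb, ← hA, ← hB]
  have hA0 : 0 ≤ A := by rw [hA]; positivity
  have hB0 : 0 ≤ B := by rw [hB]; positivity
  have hb0 : 0 ≤ b := by rw [hb]; positivity
  have hbB : b ≤ B := by
    rw [hb, hB]
    exact_mod_cast card_filter_le _ _
  have e2 : a * b - A * B / (q : ℝ) ^ 2 = (a - A / q) * b + (A / q) * (b - B / q) := by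
    field_simp
    ring
  rw [e2]
  refine (abs_add_le _ _).trans ?_
  rw [abs_mul, abs_mul, abs_of_nonneg hb0, abs_of_nonneg (by positivity : 0 ≤ A / q)]
  have h3 : A / q ≤ A := div_le_self hA0 (by exact_mod_cast hq1)
  have h4 : |a - A / q| * b ≤ A / X * B := mul_le_mul h1 hbB hb0 (by positivity)
  have h5 : A / q * |b - B / q| ≤ A * (B / X) := mul_le_mul h3 h2 (abs_nonneg _) hA0
  have h6 : ((X / 2 : ℕ) : ℝ) ≤ X / 2 := by
    rw [le_div_iff₀ (by norm_num)]
    exact_mod_cast Nat.div_mul_le_self X 2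
  have h7 : (0 : ℝ) < ((X / 2 : ℕ) : ℝ) := by exact_mod_cast hX2
  calc |a - A / q| * b + A / q * |b - B / q| ≤ A / X * B + A * (B / X) := add_le_add h4 h5
    _ = A * B / (X / 2) := by field_simp; ring
    _ ≤ A * B / ((X / 2 : ℕ) : ℝ) := div_le_div_of_nonneg_left (by positivity) h7 h6

end Pool.Agent.K7.H67.CUB
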